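import Pool.Agent.PathAct.Dense

/-! MP_2b70d6_lc: the universality of the left action of a Polish group on its closed subsets, when
the quotient by the closure of the identity path component is non-archimedean and complete. -/

set_option autoImplicit false

universe u v

open Pool.Agent.LeftAct Pool.Agent.PathAct

/-- Let `G` be a Polish group and let `G₀` be the closure of the path component of the identity.
Suppose that `H = G ⧸ G₀` is non-archimedean (the open subgroups form a basis at the identity) and
complete in its left uniformity. If there are a compact normal subgroup `N` of `H`, a closed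
subgroup `L` of `G` of infinite index and a continuous homomorphism `φ : L → H` such that
`φ(L) N` is dense in `H`, and `N` is finite or `L` is not open, then `E_a` is universal for the
orbit equivalence relations of the Borel actions of `G`. -/
theorem Pool.Agent.Results.MP_2b70d6_lc.DenseImage.result
    {G : Type u} [Group G] [TopologicalSpace G] [IsTopologicalGroup G] [PolishSpace G]
    [MeasurableSpace G] [BorelSpace G] (G₀ : Subgroup G) [G₀.Normal]
    (h₀ : (G₀ : Set G) = closure (pathComponent (1 : G))) [NonarchimedeanGroup (G ⧸ G₀)]
    (hcomp : @CompleteSpace (G ⧸ G₀) (IsTopologicalGroup.leftUniformSpace (G ⧸ G₀)))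
    (N : Subgroup (G ⧸ G₀)) [N.Normal] (hN : IsCompact (N : Set (G ⧸ G₀)))
    (L : Subgroup G) (hL : IsClosed (L : Set G)) (hidx : L.index = 0)
    (hNL : (N : Set (G ⧸ G₀)).Finite ∨ ¬ IsOpen (L : Set G))
    (φ : L →* G ⧸ G₀) (hφ : Continuous φ)
    (hs : Dense {q : G ⧸ G₀ | ∃ l : L, ∃ n ∈ N, φ l * n = q}) :
    LeftActionUniversal.{u, v} G :=
  universal_of_dense G₀ h₀ hcomp N L hN hL hidx φ hφ hNL hs
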