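import Pool.Agent.PathAct.Dense

/-! MP_2b70d6_lc: large parts of every Borel action of a Polish group embed equivariantly into the
left action of the group on its closed subsets. -/

set_option autoImplicit false

universe u v

open Pool.Agent.LeftAct Pool.Agent.PathAct

/-- Let `G` be a Polish group and let `G₀` be the closure of the path component of the identity.
For every Borel action of `G` on a standard Borel space `X` there is a Borel equivariant map from
`X` to the space of closed subsets of `G` with the left action, which is injective on the set of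
all points which are not fixed by `G₀` and, if `G ⧸ G₀` is non-archimedean and complete in its left
uniformity, on the set of all points with a non-open stabilizer; moreover it takes no value of
these points at another point. -/
theorem Pool.Agent.Results.MP_2b70d6_lc.EquivariantEmbedding.result
    {G : Type u} [Group G] [TopologicalSpace G] [IsTopologicalGroup G] [PolishSpace G]
    [MeasurableSpace G] [BorelSpace G] (G₀ : Subgroup G) [G₀.Normal]
    (h₀ : (G₀ : Set G) = closure (pathComponent (1 : G)))
    {X : Type v} [MeasurableSpace X] [StandardBorelSpace X] [MulAction G X]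
    (hact : Measurable fun p : G × X => p.1 • p.2) :
    ∃ f : X → TopologicalSpace.Closeds G,
      @Measurable X (TopologicalSpace.Closeds G) _ (effros G) f ∧
      (∀ (g : G) (x : X), f (g • x) = translate g (f x)) ∧
      ∀ x y : X, ((∃ g ∈ G₀, g • x ≠ x) ∨
          (NonarchimedeanGroup (G ⧸ G₀) ∧
            @CompleteSpace (G ⧸ G₀) (IsTopologicalGroup.leftUniformSpace (G ⧸ G₀)) ∧
            ¬ IsOpen {g : G | g • x = x})) →
        f x = f y → x = y := by
  by_cases hH : NonarchimedeanGroup (G ⧸ G₀) ∧
      @CompleteSpace (G ⧸ G₀) (IsTopologicalGroup.leftUniformSpace (G ⧸ G₀))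
  · obtain ⟨hna, hcomp⟩ := hH
    obtain ⟨f, hm, he, hi, -⟩ := exists_nonopen_coding (X := X) G₀ h₀ hcomp hact
    refine ⟨f, hm, he, fun x y hx hxy => hi x ?_ y hxy⟩
    rcases hx with ⟨g, hg, hgx⟩ | ⟨-, -, hx⟩
    · intro ho
      have ho' : IsOpen ((MulAction.stabilizer G x : Subgroup G) : Set G) := ho
      have h1 : g ∈ closure (pathComponent (1 : G)) := by
        rw [← h₀]
        exact hg
      have h2 : closure (pathComponent (1 : G)) ⊆
          ((MulAction.stabilizer G x : Subgroup G) : Set G) :=
        closure_minimal (fun k hk => mem_of_isOpen_of_mem ho' hk)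
          ((MulAction.stabilizer G x).isClosed_of_isOpen ho')
      exact hgx (h2 h1)
    · exact hx
  · obtain ⟨f, hm, he, hi⟩ := exists_equivariant_map G₀ h₀ X hact
    refine ⟨f, hm, he, fun x y hx hxy => hi x y ?_ hxy⟩
    rcases hx with hx | ⟨h1, h2, -⟩
    · exact hx
    · exact absurd ⟨h1, h2⟩ hH
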