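import Pool.Agent.TLA.Final

/-! MP_2b70d6_lc: there is a countable infinite discrete group `G` such that the orbit relation of
the left action of `G` on its closed subsets is not universal for the orbit equivalence relations of
Borel actions of `G`. -/

set_option autoImplicit false

open Pool.Agent.LeftAct

/-- There is an infinite Polish group `G` (a countable discrete group) for which the orbit
equivalence relation `E_a` of the left action of `G` on the space of closed subsets of `G` is not
universal: some Borel action of `G` on a standard Borel space has an orbit equivalence relation
without Borel e.r.-embedding into `E_a`. -/
theorem Pool.Agent.Results.MP_2b70d6_lc.NotUniversal.result :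
    ∃ (G : Type) (_ : Group G) (_ : TopologicalSpace G) (_ : IsTopologicalGroup G)
      (_ : MeasurableSpace G), Countable G ∧ Infinite G ∧ DiscreteTopology G ∧ PolishSpace G ∧
      BorelSpace G ∧ ¬ LeftActionUniversal.{0, 0} G :=
  Pool.Agent.TLA.exists_not_universal
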