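import Pool.Agent.PathAct.Virtual

/-! MP_2b70d6_lc: the universality of the left action of a Polish group on its closed subsets, for
groups with a large identity path component. -/

set_option autoImplicit false

universe u v

open Pool.Agent.LeftAct Pool.Agent.PathAct

/-- Let `G` be a Polish group and let `G₀` be the closure of the path component of the identity,
a closed normal subgroup. The relation `E_a` of `G` is universal for the orbit equivalence
relations of the Borel actions of `G` if one of the following holds: `G₀` is nontrivial and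
`G ⧸ G₀` is compact; or `E_a` is universal for `G ⧸ G₀`; or there are a compact normal subgroup `N`
of `G ⧸ G₀`, a closed subgroup `L` of `G` of infinite index and a continuous homomorphism
`φ : L → G ⧸ G₀` with `φ(L) N = G ⧸ G₀`, such that `L` is not open, or `N` is finite and `φ` is
trivial on `L ∩ G₀`. -/
theorem Pool.Agent.Results.MP_2b70d6_lc.PathComponent.result
    {G : Type u} [Group G] [TopologicalSpace G] [IsTopologicalGroup G] [PolishSpace G]
    [MeasurableSpace G] [BorelSpace G] (G₀ : Subgroup G) [G₀.Normal]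
    (h₀ : (G₀ : Set G) = closure (pathComponent (1 : G)))
    (h : (G₀ ≠ ⊥ ∧ CompactSpace (G ⧸ G₀)) ∨ LeftActionUniversal.{u, v} (G ⧸ G₀) ∨
      ∃ (N : Subgroup (G ⧸ G₀)) (L : Subgroup G) (φ : L →* G ⧸ G₀), N.Normal ∧
        IsCompact (N : Set (G ⧸ G₀)) ∧ IsClosed (L : Set G) ∧ L.index = 0 ∧ Continuous φ ∧
        (∀ g : G ⧸ G₀, ∃ l : L, ∃ n ∈ N, φ l * n = g) ∧
        (¬ IsOpen (L : Set G) ∨
          ((N : Set (G ⧸ G₀)).Finite ∧ ∀ l : L, (l : G) ∈ G₀ → φ l = 1))) :
    LeftActionUniversal.{u, v} G := by
  rcases h with ⟨hne, hc⟩ | h | ⟨N, L, φ, hN, hNc, hLc, hidx, hφ, hs, hor⟩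
  · exact universal_of_compact G₀ h₀ hne
  · exact universal_of_quotient G₀ h₀ h
  · exact universal_of_virtual G₀ h₀ N L hNc hLc hidx φ hφ hor hs
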